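import Pool.Agent.R816.FTG

/-!
# Words of length at most four over a sum of two alphabets
-/

set_option autoImplicit false

open Set

namespace Pool.Agent.Helper62K3

open Pool.Agent.R816.FTG

/-- an element or its inverse -/
def sg {G : Type} [Group G] (s : Bool) (g : G) : G := cond s g g⁻¹

/-- the product `d^s b^e c^(-e) d^(-s)` of generators -/
def P {X : Type} (d b c : X) (s e : Bool) : FTG X :=
  sg s (gen d) * (sg e (gen b) * (sg (!e) (gen c) * sg (!s) (gen d)))

theorem sg_mk {X : Type} (x : X) (s : Bool) :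
    (FreeGroup.mk [(x, s)] : FreeGroup X) = (sg s (gen x) : FTG X) := by
  cases s
  · exact (FreeGroup.inv_mk (L := [(x, true)])).symm
  · rfl

theorem mk_cons {X : Type} (p : X × Bool) (L : List (X × Bool)) {v : FTG X}
    (hv : (FreeGroup.mk L : FreeGroup X) = v) :
    (FreeGroup.mk (p :: L) : FreeGroup X) = (sg p.2 (gen p.1) * v : FTG X) := by
  have h2 : (FreeGroup.mk (p :: L) : FreeGroup X) = FreeGroup.mk [p] * FreeGroup.mk L := by
    rw [FreeGroup.mul_mk]
    rfl
  rw [h2, hv, sg_mk p.1 p.2]
  rfl

theorem mk_P {X : Type} (d b c : X) (s e : Bool) :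
    (FreeGroup.mk [(d, s), (b, e), (c, !e), (d, !s)] : FreeGroup X) = P d b c s e :=
  mk_cons _ _ (mk_cons _ _ (mk_cons _ _ (sg_mk _ _)))

theorem P_self {X : Type} (d b : X) (s e : Bool) : P d b b s e = 1 := by
  unfold P sg
  cases s <;> cases e <;> simp

theorem word_mk {X : Type} {L : List (X × Bool)} (h : FreeGroup.IsReduced L) :
    word (FreeGroup.mk L : FreeGroup X) = L := by
  classical
  unfold word
  have h1 := @FreeGroup.toWord_mk X L (Classical.decEq X)
  rw [h1]
  exact @FreeGroup.IsReduced.reduce_eq X L (Classical.decEq X) h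

theorem reduced_word {X : Type} (w : FTG X) : FreeGroup.IsReduced (word w) :=
  @FreeGroup.isReduced_toWord X (Classical.decEq X) w

theorem map_mk {X Y : Type} (f : X → Y) (L : List (X × Bool)) :
    map f (FreeGroup.mk L : FreeGroup X) =
      (FreeGroup.mk (L.map fun p => (f p.1, p.2)) : FreeGroup Y) := by
  have : map f = (FreeGroup.map f : FreeGroup X →* FreeGroup Y) := by
    refine hom_ext fun x => ?_
    rw [map_gen]
    exact (FreeGroup.map.of).symm
  rw [this]
  rfl

theorem cancel {X : Type} (A B : List (X × Bool)) (x : X) (s : Bool) :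
    (FreeGroup.mk (A ++ (x, s) :: (x, !s) :: B) : FreeGroup X) = FreeGroup.mk (A ++ B) :=
  Quot.sound FreeGroup.Red.Step.not

theorem not_mem_of {X : Type} {L : List (X × Bool)} (h : FreeGroup.IsReduced L) {x : X}
    (hx : x ∉ letters (FreeGroup.mk L : FreeGroup X)) : ∀ p ∈ L, p.1 ≠ x := by
  intro p hp hpx
  refine hx (mem_letters.2 ⟨p, ?_, hpx⟩)
  rw [word_mk h]
  exact hp

section

variable {C D : Type}

/-- identify all letters of the first alphabet -/
def col : C ⊕ D → Unit ⊕ D := Sum.map (fun _ => ()) id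

theorem bad {x y : (C ⊕ D) × Bool} (h : x.1 = y.1 → x.2 = y.2)
    (h' : ¬ (col x.1 = col y.1 → x.2 = y.2)) :
    ∃ b c : C, b ≠ c ∧ x = (Sum.inl b, x.2) ∧ y = (Sum.inl c, !x.2) := by
  push Not at h'
  obtain ⟨h1, h2⟩ := h'
  obtain ⟨x, s⟩ := x
  obtain ⟨y, t⟩ := y
  simp only at h h1 h2 ⊢
  have ht : t = !s := by
    cases s <;> cases t <;> simp_all
  rcases x with b | d <;> rcases y with c | d'
  · refine ⟨b, c, ?_, rfl, by rw [ht]⟩
    rintro rfl
    exact h2 (h rfl)
  · simp [col] at h1
  · simp [col] at h1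
  · have : d = d' := by simpa [col] using h1
    exact absurd (h (by rw [this])) h2

theorem classify {w : FTG (C ⊕ D)} (hw : len w ≤ 4) {d : D} (hd : Sum.inr d ∈ letters w)
    (hd' : Sum.inr d ∉ letters (map col w)) :
    ∃ (s e : Bool) (b c : C), b ≠ c ∧ w = P (Sum.inr d) (Sum.inl b) (Sum.inl c) s e := by
  have hL := reduced_word w
  have hwL := mk_word w
  obtain ⟨p, hp, hpd⟩ := mem_letters.1 hd
  have hlen : (word w).length ≤ 4 := hw
  have hm : map col w = (FreeGroup.mk ((word w).map fun p => (col p.1, p.2)) :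
      FreeGroup (Unit ⊕ D)) := by
    conv_lhs => rw [← hwL]
    exact map_mk _ _
  rw [hm] at hd'
  generalize word w = L at hL hwL hp hlen hd'
  have nd : ∀ {M : List ((Unit ⊕ D) × Bool)}, FreeGroup.IsReduced M →
      (FreeGroup.mk (L.map fun p => (col p.1, p.2)) : FreeGroup (Unit ⊕ D)) = FreeGroup.mk M →
      ∀ q ∈ M, q.1 ≠ Sum.inr d := by
    intro M hM h
    rw [h] at hd'
    exact not_mem_of hM hd'
  have cd : ∀ {q : (C ⊕ D) × Bool}, q.1 = Sum.inr d → col q.1 = (Sum.inr d : Unit ⊕ D) := by
    intro q hq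
    rw [hq]
    rfl
  rcases L with _ | ⟨x, _ | ⟨y, _ | ⟨z, _ | ⟨t, L⟩⟩⟩⟩
  · simp at hp
  · exfalso
    have h1 := nd (M := [(col x.1, x.2)]) FreeGroup.IsReduced.singleton rfl
    have h2 : p = x := by simpa using hp
    exact h1 _ (List.mem_singleton.2 rfl) (cd (h2 ▸ hpd))
  · exfalso
    rw [FreeGroup.isReduced_cons_cons] at hL
    by_cases hxy : col x.1 = col y.1 → x.2 = y.2
    · have h1 := nd (M := [(col x.1, x.2), (col y.1, y.2)])
        (FreeGroup.isReduced_cons_cons.2 ⟨hxy, FreeGroup.IsReduced.singleton⟩) rfl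
      have h2 : p = x ∨ p = y := by simpa using hp
      rcases h2 with h2 | h2
      · exact h1 (col x.1, x.2) (by simp) (cd (h2 ▸ hpd))
      · exact h1 (col y.1, y.2) (by simp) (cd (h2 ▸ hpd))
    · obtain ⟨b, c, -, h1, h2⟩ := bad hL.1 hxy
      have h3 : p = x ∨ p = y := by simpa using hp
      rcases h3 with rfl | rfl
      · rw [h1] at hpd; simp at hpd
      · rw [h2] at hpd; simp at hpd
  · exfalso
    rw [FreeGroup.isReduced_cons_cons, FreeGroup.isReduced_cons_cons] at hL
    have h0 : p = x ∨ p = y ∨ p = z := by simpa using hp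
    by_cases hxy : col x.1 = col y.1 → x.2 = y.2
    · by_cases hyz : col y.1 = col z.1 → y.2 = z.2
      · have h1 := nd (M := [(col x.1, x.2), (col y.1, y.2), (col z.1, z.2)])
          (FreeGroup.isReduced_cons_cons.2 ⟨hxy, FreeGroup.isReduced_cons_cons.2
            ⟨hyz, FreeGroup.IsReduced.singleton⟩⟩) rfl
        rcases h0 with h2 | h2 | h2
        · exact h1 (col x.1, x.2) (by simp) (cd (h2 ▸ hpd))
        · exact h1 (col y.1, y.2) (by simp) (cd (h2 ▸ hpd))
        · exact h1 (col z.1, z.2) (by simp) (cd (h2 ▸ hpd))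
      · obtain ⟨b, c, -, h1, h2⟩ := bad hL.2.1 hyz
        have h3 : (FreeGroup.mk ([x, y, z].map fun p => (col p.1, p.2)) : FreeGroup (Unit ⊕ D)) =
            FreeGroup.mk [(col x.1, x.2)] := by
          rw [h1, h2]
          exact cancel [(col x.1, x.2)] [] (Sum.inl ()) y.2
        have h4 := nd FreeGroup.IsReduced.singleton h3
        rcases h0 with h5 | h5 | h5
        · exact h4 (col x.1, x.2) (by simp) (cd (h5 ▸ hpd))
        · rw [h5, h1] at hpd; simp at hpd
        · rw [h5, h2] at hpd; simp at hpd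
    · obtain ⟨b, c, -, h1, h2⟩ := bad hL.1 hxy
      have h3 : (FreeGroup.mk ([x, y, z].map fun p => (col p.1, p.2)) : FreeGroup (Unit ⊕ D)) =
          FreeGroup.mk [(col z.1, z.2)] := by
        rw [h1, h2]
        exact cancel [] [(col z.1, z.2)] (Sum.inl ()) x.2
      have h4 := nd FreeGroup.IsReduced.singleton h3
      rcases h0 with h5 | h5 | h5
      · rw [h5, h1] at hpd; simp at hpd
      · rw [h5, h2] at hpd; simp at hpd
      · exact h4 (col z.1, z.2) (by simp) (cd (h5 ▸ hpd))
  · have hLn : L = [] := by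
      rw [← List.length_eq_zero_iff]
      simp only [List.length_cons] at hlen
      omega
    subst hLn
    rw [FreeGroup.isReduced_cons_cons, FreeGroup.isReduced_cons_cons,
      FreeGroup.isReduced_cons_cons] at hL
    have h0 : p = x ∨ p = y ∨ p = z ∨ p = t := by simpa using hp
    -- a pair which does not cancel
    have pair : ∀ u v : (C ⊕ D) × Bool, (col u.1 = col v.1 → u.2 = v.2) →
        (FreeGroup.mk ([x, y, z, t].map fun p => (col p.1, p.2)) : FreeGroup (Unit ⊕ D)) =
          FreeGroup.mk [(col u.1, u.2), (col v.1, v.2)] → p ≠ u ∧ p ≠ v := by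
      intro u v huv h
      have h4 := nd (FreeGroup.isReduced_cons_cons.2 ⟨huv, FreeGroup.IsReduced.singleton⟩) h
      refine ⟨?_, ?_⟩
      · rintro rfl
        exact h4 (col p.1, p.2) (by simp) (cd hpd)
      · rintro rfl
        exact h4 (col p.1, p.2) (by simp) (cd hpd)
    by_cases hxy : col x.1 = col y.1 → x.2 = y.2
    · by_cases hzt : col z.1 = col t.1 → z.2 = t.2
      · by_cases hyz : col y.1 = col z.1 → y.2 = z.2
        · exfalso
          have h1 := nd (M := [(col x.1, x.2), (col y.1, y.2), (col z.1, z.2), (col t.1, t.2)])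
            (FreeGroup.isReduced_cons_cons.2 ⟨hxy, FreeGroup.isReduced_cons_cons.2
              ⟨hyz, FreeGroup.isReduced_cons_cons.2 ⟨hzt, FreeGroup.IsReduced.singleton⟩⟩⟩) rfl
          rcases h0 with h2 | h2 | h2 | h2
          · exact h1 (col x.1, x.2) (by simp) (cd (h2 ▸ hpd))
          · exact h1 (col y.1, y.2) (by simp) (cd (h2 ▸ hpd))
          · exact h1 (col z.1, z.2) (by simp) (cd (h2 ▸ hpd))
          · exact h1 (col t.1, t.2) (by simp) (cd (h2 ▸ hpd))
        · obtain ⟨b, c, hbc, h1, h2⟩ := bad hL.2.1 hyz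
          have h3 : (FreeGroup.mk ([x, y, z, t].map fun p => (col p.1, p.2)) :
              FreeGroup (Unit ⊕ D)) = FreeGroup.mk [(col x.1, x.2), (col t.1, t.2)] := by
            rw [h1, h2]
            exact cancel [(col x.1, x.2)] [(col t.1, t.2)] (Sum.inl ()) y.2
          have hpyz : p ≠ y ∧ p ≠ z := by
            refine ⟨?_, ?_⟩
            · rintro rfl
              rw [h1] at hpd; simp at hpd
            · rintro rfl
              rw [h2] at hpd; simp at hpd
          by_cases hxt : col x.1 = col t.1 → x.2 = t.2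
          · exfalso
            obtain ⟨h4, h5⟩ := pair x t hxt h3
            tauto
          · push Not at hxt
            obtain ⟨h4, h5⟩ := hxt
            have h6 : x.1 = Sum.inr d ∧ t.1 = Sum.inr d := by
              have h7 : col x.1 = (Sum.inr d : Unit ⊕ D) := by
                rcases h0 with h | h | h | h
                · exact cd (h ▸ hpd)
                · exact absurd h hpyz.1
                · exact absurd h hpyz.2
                · rw [h4]
                  exact cd (h ▸ hpd)
              have h8 : col t.1 = (Sum.inr d : Unit ⊕ D) := h4 ▸ h7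
              have h9 : ∀ q : C ⊕ D, col q = (Sum.inr d : Unit ⊕ D) → q = Sum.inr d := by
                rintro (q | q) hq
                · simp [col] at hq
                · simpa [col] using hq
              exact ⟨h9 _ h7, h9 _ h8⟩
            refine ⟨x.2, y.2, b, c, hbc, ?_⟩
            rw [← hwL, ← mk_P]
            have h10 : t.2 = !x.2 := by
              clear h3 pair nd hpyz h0 h1 h2 hL
              revert h5
              cases x.2 <;> cases t.2 <;> simp
            have h11 : x = (Sum.inr d, x.2) := Prod.ext h6.1 rfl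
            have h12 : t = (Sum.inr d, !x.2) := Prod.ext h6.2 h10
            rw [h12, h2]
            conv_lhs => rw [h11, h1]
      · exfalso
        obtain ⟨b, c, -, h1, h2⟩ := bad hL.2.2.1 hzt
        have h3 : (FreeGroup.mk ([x, y, z, t].map fun p => (col p.1, p.2)) :
            FreeGroup (Unit ⊕ D)) = FreeGroup.mk [(col x.1, x.2), (col y.1, y.2)] := by
          rw [h1, h2]
          exact cancel [(col x.1, x.2), (col y.1, y.2)] [] (Sum.inl ()) z.2
        obtain ⟨h4, h5⟩ := pair x y hxy h3
        rcases h0 with h6 | h6 | h6 | h6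
        · exact h4 h6
        · exact h5 h6
        · rw [h6, h1] at hpd; simp at hpd
        · rw [h6, h2] at hpd; simp at hpd
    · exfalso
      obtain ⟨b, c, -, h1, h2⟩ := bad hL.1 hxy
      have h3 : (FreeGroup.mk ([x, y, z, t].map fun p => (col p.1, p.2)) :
          FreeGroup (Unit ⊕ D)) = FreeGroup.mk [(col z.1, z.2), (col t.1, t.2)] := by
        rw [h1, h2]
        exact cancel [] [(col z.1, z.2), (col t.1, t.2)] (Sum.inl ()) x.2
      have hpxy : p ≠ x ∧ p ≠ y := by
        refine ⟨?_, ?_⟩
        · rintro rfl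
          rw [h1] at hpd; simp at hpd
        · rintro rfl
          rw [h2] at hpd; simp at hpd
      by_cases hzt : col z.1 = col t.1 → z.2 = t.2
      · obtain ⟨h4, h5⟩ := pair z t hzt h3
        tauto
      · obtain ⟨b', c', -, h1', h2'⟩ := bad hL.2.2.1 hzt
        rcases h0 with h6 | h6 | h6 | h6
        · exact hpxy.1 h6
        · exact hpxy.2 h6
        · rw [h6, h1'] at hpd; simp at hpd
        · rw [h6, h2'] at hpd; simp at hpd

end

end Pool.Agent.Helper62K3
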