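import Pool.Agent.Helper62K3.FA

/-!
# Stabilisers of continuous actions and partitions
-/

set_option autoImplicit false

open Topology Set Filter

namespace Pool.Agent.Helper62K3

open Pool.Agent.R816.FTG

section perm

variable {X Y : Type}

/-- the stabilisers of finite sets -/
@[instance_reducible]
def stabBasis (a : FTG X →* Equiv.Perm Y) : GroupFilterBasis (FTG X) where
  sets := {U | ∃ F : Finset Y, U = {w | ∀ y ∈ F, a w y = y}}
  nonempty := ⟨_, ∅, rfl⟩
  inter_sets := by
    rintro _ _ ⟨F, rfl⟩ ⟨F', rfl⟩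
    classical
    refine ⟨_, ⟨F ∪ F', rfl⟩, ?_⟩
    intro w hw
    exact ⟨fun y hy => hw y (Finset.mem_union_left _ hy),
      fun y hy => hw y (Finset.mem_union_right _ hy)⟩
  one' := by
    rintro _ ⟨F, rfl⟩
    intro y _
    rw [map_one]
    rfl
  mul' := by
    rintro _ ⟨F, rfl⟩
    refine ⟨_, ⟨F, rfl⟩, ?_⟩
    rintro _ ⟨v, hv, w, hw, rfl⟩ y hy
    have h1 := hv y hy
    have h2 := hw y hy
    change a (v * w) y = y
    rw [map_mul, Equiv.Perm.mul_apply, h2, h1]
  inv' := by
    rintro _ ⟨F, rfl⟩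
    refine ⟨_, ⟨F, rfl⟩, ?_⟩
    intro w hw y hy
    have h1 := hw y hy
    change a w⁻¹ y = y
    rw [map_inv, Equiv.Perm.inv_eq_iff_eq, h1]
  conj' := by
    rintro v _ ⟨F, rfl⟩
    classical
    refine ⟨_, ⟨F.image (fun y => a v⁻¹ y), rfl⟩, ?_⟩
    intro w hw y hy
    have h1 := hw (a v⁻¹ y) (Finset.mem_image_of_mem _ hy)
    change a (v * w * v⁻¹) y = y
    rw [map_mul, map_mul, Equiv.Perm.mul_apply, Equiv.Perm.mul_apply, h1, map_inv]
    exact Equiv.apply_symm_apply _ _

theorem isOpen_stab [TopologicalSpace X] {a : FTG X →* Equiv.Perm Y}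
    (ha : ∀ y, IsLocallyConstant fun x => a (gen x) y) (y0 : Y) :
    IsOpen {w : FTG X | a w y0 = y0} := by
  have h1 : (instTop X) ≤ (stabBasis a).topology := by
    refine sInf_le ⟨(stabBasis a).isTopologicalGroup, ?_⟩
    rw [@continuous_iff_continuousAt _ _ _ (stabBasis a).topology]
    intro x
    refine (((stabBasis a).nhds_hasBasis (gen x)).tendsto_right_iff).2 ?_
    rintro _ ⟨F, rfl⟩
    have h2 : ∀ᶠ x' in 𝓝 x, ∀ y ∈ F, a (gen x') y = a (gen x) y := by
      rw [Filter.eventually_all_finset]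
      intro y _
      exact (ha y).eventually_eq x
    filter_upwards [h2] with x' hx'
    refine ⟨(gen x)⁻¹ * gen x', ?_, by simp⟩
    intro y hy
    rw [map_mul, Equiv.Perm.mul_apply, hx' y hy, map_inv]
    exact Equiv.symm_apply_apply _ _
  refine h1 _ ?_
  refine (@isOpen_iff_mem_nhds _ (stabBasis a).topology _).2 ?_
  intro w hw
  refine (((stabBasis a).nhds_hasBasis w).mem_iff).2 ⟨_, ⟨{y0}, rfl⟩, ?_⟩
  rintro _ ⟨v, hv, rfl⟩
  have h2 : a v y0 = y0 := hv y0 (Finset.mem_singleton_self _)
  change a (w * v) y0 = y0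
  rw [map_mul, Equiv.Perm.mul_apply, h2]
  exact hw

end perm

section fan

variable {C D : Type}

open Classical in
/-- the involution of a letter of the first alphabet -/
noncomputable def invC (p : D → C → Set C) (c : C) :
    Option (D ⊕ D × Set C) → Option (D ⊕ D × Set C)
  | none => none
  | some (Sum.inl d) => some (Sum.inr (d, p d c))
  | some (Sum.inr (d, s)) => if s = p d c then some (Sum.inl d) else some (Sum.inr (d, s))

theorem invC_invC (p : D → C → Set C) (c : C) : Function.Involutive (invC p c) := by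
  classical
  rintro (_ | (d | ⟨d, s⟩))
  · rfl
  · simp [invC]
  · by_cases h : s = p d c
    · simp [invC, h]
    · simp [invC, h]

open Classical in
/-- the involution of a letter -/
noncomputable def perm (p : D → C → Set C) : C ⊕ D → Equiv.Perm (Option (D ⊕ D × Set C)) :=
  Sum.elim (fun c => (invC_invC p c).toPerm) fun d => Equiv.swap none (some (Sum.inl d))

theorem perm_inv (p : D → C → Set C) (x : C ⊕ D) : (perm p x)⁻¹ = perm p x := by
  rcases x with c | d
  · exact (invC_invC p c).toPerm_symm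
  · classical
    have h : perm p (Sum.inr d) * perm p (Sum.inr d) = 1 := by
      unfold perm
      rw [Sum.elim_inr]
      exact Equiv.swap_mul_self _ _
    exact inv_eq_of_mul_eq_one_left h

theorem lift_sg (p : D → C → Set C) (x : C ⊕ D) (s : Bool) :
    lift (perm p) (sg s (gen x)) = perm p x := by
  cases s
  · change lift (perm p) (gen x)⁻¹ = _
    rw [map_inv, lift_gen, perm_inv]
  · exact lift_gen _ _

theorem stab_P (p : D → C → Set C) {d : D} {b c : C} {s e : Bool}
    (h : lift (perm p) (P (Sum.inr d) (Sum.inl b) (Sum.inl c) s e) none = none) :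
    p d b = p d c := by
  classical
  unfold P at h
  rw [map_mul, map_mul, map_mul, lift_sg, lift_sg, lift_sg, lift_sg, Equiv.Perm.mul_apply,
    Equiv.Perm.mul_apply, Equiv.Perm.mul_apply] at h
  have h1 : perm p (Sum.inr d) none = some (Sum.inl d) := Equiv.swap_apply_left _ _
  have h2 : perm p (Sum.inl c) (some (Sum.inl d)) = some (Sum.inr (d, p d c)) := rfl
  rw [h1, h2] at h
  by_contra hne
  have h3 : perm p (Sum.inl b) (some (Sum.inr (d, p d c))) = some (Sum.inr (d, p d c)) := by
    change invC p b (some (Sum.inr (d, p d c))) = _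
    simp [invC, Ne.symm hne]
  rw [h3] at h
  have h4 : perm p (Sum.inr d) (some (Sum.inr (d, p d c))) = some (Sum.inr (d, p d c)) :=
    Equiv.swap_apply_of_ne_of_ne (by simp) (by simp)
  rw [h4] at h
  simp at h

variable [TopologicalSpace C] [TopologicalSpace D] [DiscreteTopology D]

theorem perm_locConst {p : D → C → Set C} (hp : ∀ d, IsLocallyConstant (p d))
    (y : Option (D ⊕ D × Set C)) : IsLocallyConstant fun x : C ⊕ D => perm p x y := by
  classical
  intro S
  rw [isOpen_sum_iff]
  refine ⟨?_, isOpen_discrete _⟩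
  have h1 : IsLocallyConstant fun c : C => invC p c y := by
    rcases y with _ | (d | ⟨d, s⟩)
    · exact IsLocallyConstant.const _
    · exact (hp d).comp fun t => (some (Sum.inr (d, t)) : Option (D ⊕ D × Set C))
    · exact (hp d).comp fun t =>
        (if s = t then some (Sum.inl d) else some (Sum.inr (d, s)) : Option (D ⊕ D × Set C))
  exact h1 S

theorem isOpen_fan {p : D → C → Set C} (hp : ∀ d, IsLocallyConstant (p d)) :
    IsOpen {w : FTG (C ⊕ D) | lift (perm p) w none = none} := by
  refine isOpen_stab (a := lift (perm p)) (fun y => ?_) none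
  have h := perm_locConst hp y
  have h2 : (fun x => lift (perm p) (gen x) y) = fun x => perm p x y := by
    funext x
    rw [lift_gen]
  rw [h2]
  exact h

end fan

/-- clopen partitions of a zero-dimensional compact space subordinate to a neighbourhood of the
diagonal -/
theorem exists_part {C : Type} [TopologicalSpace C] [CompactSpace C] [T2Space C]
    [TotallyDisconnectedSpace C] {Ω : Set (C × C)} (hΩ : IsOpen Ω) (hd : ∀ x, (x, x) ∈ Ω) :
    ∃ p : C → Set C, IsLocallyConstant p ∧ ∀ b c, p b = p c → (b, c) ∈ Ω := by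
  classical
  have h1 : ∀ x : C, ∃ A : Set C, IsClopen A ∧ x ∈ A ∧ A ×ˢ A ⊆ Ω := by
    intro x
    obtain ⟨U, V, hU, hV, hxU, hxV, hUV⟩ := isOpen_prod_iff.1 hΩ x x (hd x)
    obtain ⟨A, hA, hxA, hAU⟩ := compact_exists_isClopen_in_isOpen (hU.inter hV) ⟨hxU, hxV⟩
    exact ⟨A, hA, hxA, fun q hq => hUV ⟨(hAU hq.1).1, (hAU hq.2).2⟩⟩
  choose A hA hxA hAΩ using h1
  obtain ⟨t, ht⟩ := isCompact_univ.elim_finite_subcover A (fun x => (hA x).isOpen)
    (fun x _ => mem_iUnion.2 ⟨x, hxA x⟩)
  refine ⟨fun x => {y | y ∈ t ∧ x ∈ A y}, ?_, ?_⟩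
  · rw [IsLocallyConstant.iff_exists_open]
    intro x
    refine ⟨⋂ y ∈ t, (if x ∈ A y then A y else (A y)ᶜ), ?_, ?_, ?_⟩
    · refine isOpen_biInter_finset fun y _ => ?_
      split_ifs
      · exact (hA y).isOpen
      · exact (hA y).compl.isOpen
    · simp only [mem_iInter]
      intro y _
      split_ifs with h
      · exact h
      · exact h
    · intro x' hx'
      simp only [mem_iInter] at hx'
      ext y
      constructor
      · rintro ⟨hy, hxy⟩
        refine ⟨hy, ?_⟩
        by_contra hn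
        have := hx' y hy
        rw [if_neg hn] at this
        exact this hxy
      · rintro ⟨hy, hxy⟩
        refine ⟨hy, ?_⟩
        have := hx' y hy
        rw [if_pos hxy] at this
        exact this
  · intro b c hbc
    obtain ⟨y, hy, hby⟩ := mem_iUnion₂.1 (ht (mem_univ b))
    have h3 : y ∈ {y | y ∈ t ∧ b ∈ A y} := ⟨hy, hby⟩
    have h2 : y ∈ {y | y ∈ t ∧ c ∈ A y} := by
      have h4 : {y | y ∈ t ∧ b ∈ A y} = {y | y ∈ t ∧ c ∈ A y} := hbc
      rw [← h4]
      exact h3
    exact hAΩ y ⟨hby, h2.2⟩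

end Pool.Agent.Helper62K3
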