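import Pool.Agent.Helper62K3.FB
import Pool.Agent.R816.FTGComp

/-!
# The words of length at most four over the sum of a compact zero-dimensional and a discrete space
-/

set_option autoImplicit false

open Topology Set

namespace Pool.Agent.Helper62K3

open Pool.Agent.R816 Pool.Agent.R816.FTG

instance sumTotSep {A B : Type} [TopologicalSpace A] [TopologicalSpace B] [TotallySeparatedSpace A]
    [TotallySeparatedSpace B] : TotallySeparatedSpace (A ⊕ B) := by
  rw [totallySeparatedSpace_iff_exists_isClopen]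
  rintro (x | x) (y | y) hxy
  · obtain ⟨U, hU, h1, h2⟩ := exists_isClopen_of_totally_separated
      (show x ≠ y from fun h => hxy (by rw [h]))
    refine ⟨Sum.inl '' U, ⟨?_, ?_⟩, mem_image_of_mem _ h1, ?_⟩
    · exact (IsClosedEmbedding.inl.isClosedMap) _ hU.1
    · exact (IsOpenEmbedding.inl.isOpenMap) _ hU.2
    · rintro ⟨z, hz, h⟩
      exact h2 (Sum.inl_injective h ▸ hz)
  · refine ⟨range Sum.inl, isClopen_range_inl, mem_range_self _, ?_⟩
    rintro ⟨z, h⟩
    simp at h
  · refine ⟨range Sum.inr, isClopen_range_inr, mem_range_self _, ?_⟩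
    rintro ⟨z, h⟩
    simp at h
  · obtain ⟨U, hU, h1, h2⟩ := exists_isClopen_of_totally_separated
      (show x ≠ y from fun h => hxy (by rw [h]))
    refine ⟨Sum.inr '' U, ⟨?_, ?_⟩, mem_image_of_mem _ h1, ?_⟩
    · exact (IsClosedEmbedding.inr.isClosedMap) _ hU.1
    · exact (IsOpenEmbedding.inr.isOpenMap) _ hU.2
    · rintro ⟨z, hz, h⟩
      exact h2 (Sum.inr_injective h ▸ hz)

theorem sg_continuous {G : Type} [Group G] [TopologicalSpace G] [IsTopologicalGroup G] (s : Bool) :
    Continuous (sg s : G → G) := by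
  cases s
  · exact continuous_inv
  · exact continuous_id

theorem map_sg {X Y : Type} (f : X → Y) (s : Bool) (x : X) :
    map f (sg s (gen x)) = sg s (gen (f x)) := by
  cases s
  · change map f (gen x)⁻¹ = _
    rw [map_inv, map_gen]
    rfl
  · exact map_gen _ _

theorem map_P {X Y : Type} (f : X → Y) (d b c : X) (s e : Bool) :
    map f (P d b c s e) = P (f d) (f b) (f c) s e := by
  unfold P
  rw [map_mul, map_mul, map_mul, map_sg, map_sg, map_sg, map_sg]

theorem P_continuous {A X : Type} [TopologicalSpace A] [TopologicalSpace X] {i j : A → X}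
    (hi : Continuous i) (hj : Continuous j) (d : X) (s e : Bool) :
    Continuous fun a => P d (i a) (j a) s e := by
  unfold P
  refine continuous_const.mul (Continuous.mul ?_ (Continuous.mul ?_ continuous_const))
  · exact (sg_continuous e).comp ((continuous_gen X).comp hi)
  · exact (sg_continuous (!e)).comp ((continuous_gen X).comp hj)

theorem letters_map {X Y : Type} (f : X → Y) {w : FTG X} {y : Y} (hy : y ∈ letters (map f w)) :
    ∃ x ∈ letters w, f x = y := by
  have h1 : w ∈ Subgroup.closure ((gen : X → FTG X) '' {x | x ∈ letters w}) :=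
    mem_closure.2 fun x hx => hx
  have h2 : map f w ∈ Subgroup.closure ((gen : Y → FTG Y) '' (f '' {x | x ∈ letters w})) := by
    have h3 := Subgroup.mem_map_of_mem (map f) h1
    rw [MonoidHom.map_closure] at h3
    refine Subgroup.closure_mono ?_ h3
    rintro _ ⟨_, ⟨x, hx, rfl⟩, rfl⟩
    exact ⟨f x, ⟨x, hx, rfl⟩, (map_gen f x).symm⟩
  obtain ⟨x, hx, h⟩ := mem_closure.1 h2 y hy
  exact ⟨x, hx, h⟩

/-- the letter `d` occurs in the reduced form of `d^s b^e c^(-e) d^(-s)` -/
theorem mem_letters_P {X : Type} {d b c : X} (h1 : d ≠ b) (h2 : b ≠ c) (h3 : c ≠ d) (s e : Bool) :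
    d ∈ letters (P d b c s e) := by
  rw [← mk_P]
  have h : FreeGroup.IsReduced [(d, s), (b, e), (c, !e), (d, !s)] := by
    rw [FreeGroup.isReduced_cons_cons, FreeGroup.isReduced_cons_cons, FreeGroup.isReduced_cons_cons]
    exact ⟨fun h => absurd h h1, fun h => absurd h h2, fun h => absurd h h3,
      FreeGroup.IsReduced.singleton⟩
  refine mem_letters.2 ⟨(d, s), ?_, rfl⟩
  rw [word_mk h]
  simp

section

variable {C D : Type}

/-- the inclusion of a finite part -/
def inc (E : Finset D) : C ⊕ E → C ⊕ D := Sum.map id Subtype.val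

/-- words of length at most four with letters in the first alphabet and in `E` -/
def Q (E : Finset D) (u : Fin 4 → Lam (C ⊕ E)) : FTG (C ⊕ D) := map (inc E) (q 4 u)

theorem len_Q (E : Finset D) (u : Fin 4 → Lam (C ⊕ E)) : len (Q E u) ≤ 4 :=
  (len_map _ _).trans (len_q 4 u)

theorem mk_mem_range {M : Type} (L : List (M × Bool)) :
    (FreeGroup.mk L : FreeGroup M) ∈ range (q L.length : (Fin L.length → Lam M) → FTG M) := by
  induction L with
  | nil => exact ⟨fun i => i.elim0, rfl⟩
  | cons p L ih =>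
    obtain ⟨u, hu⟩ := ih
    obtain ⟨x, b⟩ := p
    refine ⟨Fin.cons (Sum.inl (cond b (Sum.inl x) (Sum.inr x))) u, ?_⟩
    rw [mk_cons _ _ hu.symm]
    change q (L.length + 1) _ = _
    rw [q_succ]
    cases b
    · rfl
    · rfl

theorem exists_lift_list {A B : Type} (f : A → B) (L : List (B × Bool))
    (h : ∀ p ∈ L, ∃ a, f a = p.1) : ∃ L' : List (A × Bool), L'.map (fun p => (f p.1, p.2)) = L := by
  induction L with
  | nil => exact ⟨[], rfl⟩
  | cons p L ih =>
    obtain ⟨L', hL'⟩ := ih fun q hq => h q (List.mem_cons_of_mem _ hq)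
    obtain ⟨a, ha⟩ := h p List.mem_cons_self
    refine ⟨(a, p.2) :: L', ?_⟩
    rw [List.map_cons, hL', ha]

theorem mem_range_Q {E : Finset D} {w : FTG (C ⊕ D)} (hw : len w ≤ 4)
    (h : ∀ d, Sum.inr d ∈ letters w → d ∈ E) : w ∈ range (Q (C := C) E) := by
  obtain ⟨L, hL⟩ := exists_lift_list (inc (C := C) E) (word w) (by
    rintro ⟨c | d, s⟩ hp
    · exact ⟨Sum.inl c, rfl⟩
    · exact ⟨Sum.inr ⟨d, h d (mem_letters.2 ⟨_, hp, rfl⟩)⟩, rfl⟩)
  have h1 : w = map (inc E) (FreeGroup.mk L : FreeGroup (C ⊕ E)) := by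
    rw [map_mk, hL]
    exact (mk_word w).symm
  have h2 : L.length ≤ 4 := by
    have h3 : L.length = (word w).length := by rw [← hL, List.length_map]
    rw [h3]
    exact hw
  obtain ⟨u, hu⟩ := range_mono h2 (mk_mem_range L)
  refine ⟨u, ?_⟩
  rw [h1]
  exact congrArg _ hu

variable [TopologicalSpace C] [TopologicalSpace D] [DiscreteTopology D]

theorem inc_continuous (E : Finset D) : Continuous (inc (C := C) E) :=
  continuous_id.sumMap continuous_subtype_val

theorem Q_continuous (E : Finset D) : Continuous (Q (C := C) E) :=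
  (FTG.map_continuous (inc_continuous E)).comp (q_continuous 4)

theorem isOpen_col (S : Set (FTG (Unit ⊕ D))) :
    IsOpen (map (col : C ⊕ D → Unit ⊕ D) ⁻¹' S) := by
  refine isOpen_lift (X := C ⊕ D) (G := FTG (Unit ⊕ D)) (f := fun x => gen (col x)) ?_ S
  have h1 : IsLocallyConstant (col : C ⊕ D → Unit ⊕ D) := by
    rw [IsLocallyConstant.iff_continuous]
    exact (continuous_const).sumMap continuous_id
  exact h1.comp gen

open Classical in
/-- send the letters outside `E` to one point -/
noncomputable def sh (E : Finset D) : C ⊕ D → C ⊕ (D ⊕ Unit) :=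
  Sum.map id fun d => if d ∈ E then Sum.inl d else Sum.inr ()

theorem sh_continuous (E : Finset D) : Continuous (sh (C := C) E) :=
  continuous_id.sumMap continuous_of_discreteTopology

/-- the words `*^s b^e c^(-e) *^(-s)` -/
def TT (C D : Type) : Set (FTG (C ⊕ (D ⊕ Unit))) :=
  ⋃ se : Bool × Bool, range fun bc : C × C =>
    P (Sum.inr (Sum.inr ())) (Sum.inl bc.1) (Sum.inl bc.2) se.1 se.2

variable [CompactSpace C] [T2Space C] [TotallyDisconnectedSpace C]

theorem isClosed_TT : IsClosed (TT C D) := by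
  refine (isCompact_iUnion fun se => ?_).isClosed
  refine isCompact_range (P_continuous ?_ ?_ _ _ _)
  · exact continuous_inl.comp continuous_fst
  · exact continuous_inl.comp continuous_snd

/-- left inverse -/
def back : C ⊕ (D ⊕ Unit) → FTG (C ⊕ D) :=
  Sum.elim (fun c => gen (Sum.inl c)) (Sum.elim (fun d => gen (Sum.inr d)) fun _ => 1)

omit [TopologicalSpace C] [TopologicalSpace D] [DiscreteTopology D] [CompactSpace C] [T2Space C]
  [TotallyDisconnectedSpace C] in
theorem back_sh {E : Finset D} {g : FTG (C ⊕ D)} (h : ∀ d, Sum.inr d ∈ letters g → d ∈ E) :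
    lift back (map (sh E) g) = g := by
  have h1 : (lift back).comp (map (sh (C := C) E)) = lift fun x => back (sh E x) :=
    hom_ext fun x => by simp
  have h2 : lift back (map (sh E) g) = lift (fun x => back (sh (C := C) E x)) g :=
    DFunLike.congr_fun h1 g
  rw [h2]
  conv_rhs => rw [← lift_gen_self g]
  refine lift_congr ?_
  rintro (c | d) hx
  · rfl
  · simp [sh, back, h d hx]

omit [TopologicalSpace C] [TopologicalSpace D] [DiscreteTopology D] [CompactSpace C] [T2Space C]
  [TotallyDisconnectedSpace C] in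
theorem not_mem_TT {E : Finset D} {g : FTG (C ⊕ D)} (hg : g ≠ 1)
    (h : ∀ d, Sum.inr d ∈ letters g → d ∈ E) : map (sh E) g ∉ TT C D := by
  intro hT
  obtain ⟨⟨s, e⟩, ⟨b, c⟩, hbc⟩ := mem_iUnion.1 hT
  simp only at hbc
  by_cases hb : b = c
  · subst hb
    rw [P_self] at hbc
    apply hg
    rw [← back_sh h, ← hbc, map_one]
  · have h1 : (Sum.inr (Sum.inr ()) : C ⊕ (D ⊕ Unit)) ∈ letters (map (sh E) g) := by
      rw [← hbc]
      exact mem_letters_P (by simp) (by simpa using hb) (by simp) s e
    obtain ⟨x, hx, hxe⟩ := letters_map _ h1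
    rcases x with x | d
    · simp [sh] at hxe
    · simp [sh, h d hx] at hxe

theorem closure_inter_range {A : Set (FTG (C ⊕ D))} (hA : ∀ w ∈ A, len w ≤ 4)
    {g : FTG (C ⊕ D)} (hg : g ∈ closure A) :
    ∃ E : Finset D, g ∈ closure (A ∩ range (Q (C := C) E)) := by
  classical
  by_cases h1 : g = 1
  · subst h1
    by_contra hcon
    push Not at hcon
    -- partitions
    have h2 : ∀ d : D, ∃ p : C → Set C, IsLocallyConstant p ∧ ∀ b c, p b = p c → ∀ s e : Bool,
        P (Sum.inr d) (Sum.inl b) (Sum.inl c) s e ∉ closure (A ∩ range (Q (C := C) {d})) := by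
      intro d
      have h3 : IsOpen {bc : C × C | ∀ s e : Bool,
          P (Sum.inr d) (Sum.inl bc.1) (Sum.inl bc.2) s e ∉
            closure (A ∩ range (Q (C := C) {d}))} := by
        have h4 : {bc : C × C | ∀ s e : Bool,
            P (Sum.inr d) (Sum.inl bc.1) (Sum.inl bc.2) s e ∉
              closure (A ∩ range (Q (C := C) {d}))} =
            ⋂ s : Bool, ⋂ e : Bool, (fun bc : C × C =>
              P (Sum.inr d) (Sum.inl bc.1) (Sum.inl bc.2) s e) ⁻¹'
                (closure (A ∩ range (Q (C := C) {d})))ᶜ := by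
          ext bc
          simp
        rw [h4]
        refine isOpen_iInter_of_finite fun s => isOpen_iInter_of_finite fun e => ?_
        refine isClosed_closure.isOpen_compl.preimage (P_continuous ?_ ?_ _ _ _)
        · exact continuous_inl.comp continuous_fst
        · exact continuous_inl.comp continuous_snd
      obtain ⟨p, hp, hp2⟩ := exists_part h3 (fun x s e => by
        rw [P_self]
        exact hcon {d})
      exact ⟨p, hp, fun b c hbc => hp2 b c hbc⟩
    choose p hp hp2 using h2
    have h5 : IsOpen ((closure (A ∩ range (Q (C := C) ∅)))ᶜ ∩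
        (map (col : C ⊕ D → Unit ⊕ D) ⁻¹' {1} ∩
          {w : FTG (C ⊕ D) | lift (perm p) w none = none})) :=
      isClosed_closure.isOpen_compl.inter ((isOpen_col _).inter (isOpen_fan hp))
    have h6 : (1 : FTG (C ⊕ D)) ∈ ((closure (A ∩ range (Q (C := C) ∅)))ᶜ ∩
        (map (col : C ⊕ D → Unit ⊕ D) ⁻¹' {1} ∩
          {w : FTG (C ⊕ D) | lift (perm p) w none = none})) := by
      refine ⟨hcon ∅, ?_, ?_⟩
      · rw [mem_preimage, map_one]
        rfl
      · rw [mem_ofPred_eq, map_one]
        rfl
    obtain ⟨w, ⟨hw1, hw2, hw3⟩, hwA⟩ := mem_closure_iff.1 hg _ h5 h6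
    by_cases h7 : ∃ d : D, Sum.inr d ∈ letters w
    · obtain ⟨d, hd⟩ := h7
      have h8 : Sum.inr d ∉ letters (map col w) := by
        have h9 : map col w = (1 : FTG (Unit ⊕ D)) := hw2
        rw [h9]
        intro h10
        have h11 := card_letters (1 : FTG (Unit ⊕ D))
        rw [len_one] at h11
        have h12 : letters (1 : FTG (Unit ⊕ D)) = ∅ := Finset.card_eq_zero.1 (Nat.le_zero.1 h11)
        rw [h12] at h10
        exact absurd h10 (Finset.notMem_empty _)
      obtain ⟨s, e, b, c, hbc, rfl⟩ := classify (hA w hwA) hd h8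
      have h9 := stab_P p hw3
      refine hp2 d b c h9 s e (subset_closure ⟨hwA, mem_range_Q (hA _ hwA) ?_⟩)
      intro d' hd'
      by_contra hne
      have h10 : ∀ x ∈ letters (P (Sum.inr d) (Sum.inl b) (Sum.inl c) s e : FTG (C ⊕ D)),
          x ∈ ({Sum.inr d, Sum.inl b, Sum.inl c} : Set (C ⊕ D)) := by
        refine mem_closure.1 ?_
        have hg : ∀ (x : C ⊕ D) (s : Bool), x ∈ ({Sum.inr d, Sum.inl b, Sum.inl c} : Set (C ⊕ D)) →
            sg s (gen x) ∈ Subgroup.closure ((gen : C ⊕ D → FTG (C ⊕ D)) ''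
              {Sum.inr d, Sum.inl b, Sum.inl c}) := by
          intro x s hx
          have := Subgroup.subset_closure (mem_image_of_mem (gen : C ⊕ D → FTG (C ⊕ D)) hx)
          cases s
          · exact inv_mem this
          · exact this
        unfold P
        exact mul_mem (hg _ _ (by simp)) (mul_mem (hg _ _ (by simp)) (mul_mem (hg _ _ (by simp))
          (hg _ _ (by simp))))
      have h11 := h10 _ hd'
      simp only [mem_insert_iff, mem_singleton_iff, Sum.inr.injEq, reduceCtorEq, or_false] at h11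
      exact hne (by simp [h11])
    · push Not at h7
      exact hw1 (subset_closure ⟨hwA, mem_range_Q (hA w hwA) fun d hd => absurd hd (h7 d)⟩)
  · -- the letters of `g`
    have hE : ∀ d, Sum.inr d ∈ letters g →
        d ∈ (letters g).preimage (Sum.inr : D → C ⊕ D) Sum.inr_injective.injOn := by
      intro d hd
      exact Finset.mem_preimage.2 hd
    have hE' : ∀ d, d ∈ (letters g).preimage (Sum.inr : D → C ⊕ D) Sum.inr_injective.injOn →
        Sum.inr d ∈ letters g := fun d hd => Finset.mem_preimage.1 hd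
    generalize (letters g).preimage (Sum.inr : D → C ⊕ D) Sum.inr_injective.injOn = E at hE hE'
    refine ⟨E, ?_⟩
    have h2 : IsOpen (map (col : C ⊕ D → Unit ⊕ D) ⁻¹' {map col g} ∩
        map (sh (C := C) E) ⁻¹' (TT C D)ᶜ) :=
      (isOpen_col _).inter (isClosed_TT.isOpen_compl.preimage (FTG.map_continuous (sh_continuous E)))
    rw [mem_closure_iff]
    intro O hO hgO
    obtain ⟨w, ⟨hwO, hw1, hw2⟩, hwA⟩ := mem_closure_iff.1 hg _ (hO.inter h2)
      ⟨hgO, rfl, not_mem_TT h1 hE⟩
    refine ⟨w, hwO, hwA, mem_range_Q (hA w hwA) ?_⟩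
    intro d hd
    by_contra hdE
    have h3 : Sum.inr d ∉ letters (map col w) := by
      have h4 : map col w = map col g := hw1
      rw [h4]
      intro h5
      obtain ⟨x, hx, hxe⟩ := letters_map _ h5
      rcases x with x | d'
      · simp [col] at hxe
      · have h6 : d' = d := by simpa [col] using hxe
        exact hdE (hE d (h6 ▸ hx))
    obtain ⟨s, e, b, c, hbc, rfl⟩ := classify (hA w hwA) hd h3
    apply hw2
    rw [map_P]
    have h4 : sh (C := C) E (Sum.inr d) = Sum.inr (Sum.inr ()) := by simp [sh, hdE]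
    rw [h4]
    exact mem_iUnion.2 ⟨(s, e), (b, c), rfl⟩

end

end Pool.Agent.Helper62K3
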