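import Pool.Agent.Helper62K3.FC

/-!
# The k-space, `k_R` and Fréchet-Urysohn properties
-/

set_option autoImplicit false

open Topology Set

namespace Pool.Agent.Helper62K3

open Pool.Agent.R816 Pool.Agent.R816.FTG

/-- the subspace `F_n(X)` of the words of reduced length at most `n` -/
abbrev Fn (X : Type) [TopologicalSpace X] (n : ℕ) : Type := {w : FTG X // len w ≤ n}

/-- `k_R`-spaces: a real function is continuous if it is continuous on every compact subset -/
def IsKR (Y : Type) [TopologicalSpace Y] : Prop :=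
  ∀ f : Y → ℝ, (∀ K : Set Y, IsCompact K → ContinuousOn f K) → Continuous f

/-- every point of the closure of a set is in the closure of the intersection with a compact set -/
def StronglyK (Y : Type) [TopologicalSpace Y] : Prop :=
  ∀ (A : Set Y) (g : Y), g ∈ closure A → ∃ K : Set Y, IsCompact K ∧ g ∈ closure (A ∩ K)

theorem isKR_of {Y : Type} [TopologicalSpace Y] [T2Space Y] (h : StronglyK Y) : IsKR Y := by
  intro f hf
  rw [continuous_iff_image_closure_subset_closure_image]
  rintro A _ ⟨g, hg, rfl⟩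
  obtain ⟨K, hK, hgK⟩ := h A g hg
  have h1 : g ∈ K := closure_minimal inter_subset_right hK.isClosed hgK
  have h2 : ContinuousWithinAt f (A ∩ K) g := ((hf K hK) g h1).mono inter_subset_right
  exact closure_mono (image_mono inter_subset_left) (h2.mem_closure_image hgK)

theorem coherent_of {Y : Type} [TopologicalSpace Y] [T2Space Y] (h : StronglyK Y) :
    CompactlyCoherentSpace Y := by
  refine CompactlyCoherentSpace.of_isClosed fun A hA => ?_
  rw [← closure_subset_iff_isClosed]
  intro g hg
  obtain ⟨K, hK, hgK⟩ := h A g hg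
  have h1 : IsClosed (A ∩ K) := by
    have h2 := (hA K hK)
    have h3 : IsClosed (Subtype.val '' ((Subtype.val : K → Y) ⁻¹' A)) :=
      hK.isClosed.isClosedEmbedding_subtypeVal.isClosedMap _ h2
    rwa [Subtype.image_preimage_coe, inter_comm] at h3
  exact (h1.closure_eq ▸ hgK).1

theorem t35 {X : Type} [TopologicalSpace X] [TotallySeparatedSpace X] : T35Space (FTG X) := by
  let _ : UniformSpace (FTG X) := IsTopologicalGroup.rightUniformSpace (FTG X)
  exact {}

instance sumFC {A B : Type} [TopologicalSpace A] [TopologicalSpace B] [FirstCountableTopology A]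
    [FirstCountableTopology B] : FirstCountableTopology (A ⊕ B) := by
  refine ⟨?_⟩
  rintro (x | x)
  · rw [nhds_inl]
    infer_instance
  · rw [nhds_inr]
    infer_instance

section

variable {C D : Type} [TopologicalSpace C] [CompactSpace C] [T2Space C] [TotallyDisconnectedSpace C]
  [TopologicalSpace D] [DiscreteTopology D]

/-- the compact pieces -/
def piece (C : Type) {D : Type} [TopologicalSpace C] [TopologicalSpace D] (E : Finset D) :
    Set (Fn (C ⊕ D) 4) := {w | w.1 ∈ range (Q (C := C) E)}

theorem isCompact_piece (E : Finset D) : IsCompact (piece C E) := by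
  rw [Topology.IsEmbedding.subtypeVal.isCompact_iff]
  have h1 : Subtype.val '' (piece C E) = range (Q (C := C) E) := by
    ext w
    constructor
    · rintro ⟨v, hv, rfl⟩
      exact hv
    · rintro ⟨u, rfl⟩
      exact ⟨⟨Q E u, len_Q E u⟩, ⟨u, rfl⟩, rfl⟩
  rw [h1]
  exact isCompact_range (Q_continuous E)

theorem closure_piece {A : Set (Fn (C ⊕ D) 4)} {g : Fn (C ⊕ D) 4} (hg : g ∈ closure A) :
    ∃ E : Finset D, g ∈ closure (A ∩ piece C E) := by
  rw [closure_subtype] at hg
  obtain ⟨E, hE⟩ := closure_inter_range (A := Subtype.val '' A) (by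
    rintro _ ⟨w, _, rfl⟩
    exact w.2) hg
  refine ⟨E, ?_⟩
  rw [closure_subtype]
  refine closure_mono ?_ hE
  rintro _ ⟨⟨w, hw, rfl⟩, h⟩
  exact ⟨w, ⟨hw, h⟩, rfl⟩

theorem stronglyK : StronglyK (Fn (C ⊕ D) 4) := by
  intro A g hg
  obtain ⟨E, hE⟩ := closure_piece hg
  exact ⟨_, isCompact_piece E, hE⟩

theorem frechet [FirstCountableTopology C] : FrechetUrysohnSpace (Fn (C ⊕ D) 4) := by
  refine ⟨fun A g hg => ?_⟩
  obtain ⟨E, hE⟩ := closure_piece hg
  let Q' : (Fin 4 → Lam (C ⊕ E)) → Fn (C ⊕ D) 4 := fun u => ⟨Q E u, len_Q E u⟩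
  have hQ' : Continuous Q' := (Q_continuous E).subtype_mk _
  have h1 : A ∩ piece C E ⊆ Q' '' (Q' ⁻¹' A) := by
    rintro w ⟨hw, u, hu⟩
    have h2 : Q' u = w := Subtype.ext hu
    exact ⟨u, by rw [mem_preimage, h2]; exact hw, h2⟩
  have h3 : g ∈ Q' '' closure (Q' ⁻¹' A) := by
    have h4 : IsClosed (Q' '' closure (Q' ⁻¹' A)) :=
      (isClosed_closure.isCompact.image hQ').isClosed
    refine closure_minimal ?_ h4 hE
    exact h1.trans (image_mono subset_closure)
  obtain ⟨u, hu, rfl⟩ := h3
  obtain ⟨v, hv, hvu⟩ := mem_closure_iff_seq_limit.1 hu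
  exact ⟨fun n => Q' (v n), fun n => hv n, (hQ'.tendsto u).comp hvu⟩

end

/-- the non-trivial convergent sequence together with its limit -/
def Seq : Set ℝ := {x | x = 0 ∨ ∃ m : ℕ, 1 ≤ m ∧ x = 1 / m}

theorem seq_eq : Seq = insert (0 : ℝ) (range fun m : ℕ => 1 / ((m : ℝ) + 1)) := by
  ext x
  constructor
  · rintro (rfl | ⟨m, hm, rfl⟩)
    · exact mem_insert _ _
    · refine Or.inr ⟨m - 1, ?_⟩
      have : ((m - 1 : ℕ) : ℝ) + 1 = m := by
        rw [Nat.cast_sub hm]
        simp
      simp only [this]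
  · rintro (rfl | ⟨m, rfl⟩)
    · exact Or.inl rfl
    · exact Or.inr ⟨m + 1, by omega, by push_cast; rfl⟩

theorem isCompact_seq : IsCompact Seq := by
  rw [seq_eq]
  exact (tendsto_one_div_add_atTop_nhds_zero_nat (𝕜 := ℝ)).isCompact_insert_range

theorem countable_seq : Seq.Countable := by
  rw [seq_eq]
  exact (countable_range _).insert _

instance : CompactSpace Seq := isCompact_iff_compactSpace.1 isCompact_seq

instance : TotallyDisconnectedSpace Seq :=
  totallyDisconnectedSpace_subtype_iff.2 countable_seq.isTotallyDisconnected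

end Pool.Agent.Helper62K3
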